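import Pool.Agent.Lib.MP_d8f343_coH20.Defs

/-!
# MP_d8f343_co: a colouring without monochromatic members of a small family of sets
-/

set_option autoImplicit false

namespace UnitSpheres

open Finset

/-- The functions which are constant on `T` with the value `i`. -/
theorem card_const {V : Type} [Fintype V] [DecidableEq V] {M : ℕ} (T : Finset V) (i : Fin M) :
    ((univ : Finset (V → Fin M)).filter fun f => ∀ x ∈ T, f x = i).card
      ≤ M ^ (Fintype.card V - T.card) := by
  classical
  have h : (univ : Finset ({x // x ∈ Tᶜ} → Fin M)).card = M ^ (Fintype.card V - T.card) := by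
    rw [card_univ, Fintype.card_fun, Fintype.card_fin, Fintype.card_coe, card_compl]
  rw [← h]
  refine card_le_card_of_injOn (fun f x => f x) (fun _ _ => mem_univ _) ?_
  intro f hf g hg hfg
  simp only [coe_filter, mem_univ, true_and, Set.mem_ofPred_eq] at hf hg
  funext x
  by_cases hx : x ∈ T
  · rw [hf x hx, hg x hx]
  · exact congrFun hfg ⟨x, by rwa [mem_compl]⟩

/-- A family of fewer than `M ^ k` sets with `k + 1` elements has a colouring with `M` colours without
monochromatic member. -/
theorem exists_colouring {V : Type} [Fintype V] [DecidableEq V] {M k : ℕ} (hM : 1 ≤ M)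
    (F : Finset (Finset V)) (hF : ∀ T ∈ F, T.card = k + 1) (hc : F.card < M ^ k) :
    ∃ f : V → Fin M, ∀ T ∈ F, ∀ i, ¬ ∀ x ∈ T, f x = i := by
  classical
  by_contra hcon
  push Not at hcon
  have h1 : (univ : Finset (V → Fin M)) ⊆ (F ×ˢ (univ : Finset (Fin M))).biUnion
      fun p => univ.filter fun f => ∀ x ∈ p.1, f x = p.2 := by
    intro f _
    obtain ⟨T, hT, i, hi⟩ := hcon f
    rw [mem_biUnion]
    exact ⟨(T, i), mem_product.2 ⟨hT, mem_univ _⟩, mem_filter.2 ⟨mem_univ _, hi⟩⟩
  rcases F.eq_empty_or_nonempty with h0 | ⟨T0, hT0⟩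
  · rw [h0] at h1
    have : (fun _ => ⟨0, hM⟩ : V → Fin M) ∈ (univ : Finset (V → Fin M)) := mem_univ _
    have := h1 this
    simp at this
  · have hk : k + 1 ≤ Fintype.card V := by
      rw [← hF T0 hT0]
      exact card_le_univ T0
    have h2 : M ^ Fintype.card V ≤ (F.card * M) * M ^ (Fintype.card V - (k + 1)) := by
      calc M ^ Fintype.card V = (univ : Finset (V → Fin M)).card := by
            rw [card_univ, Fintype.card_fun, Fintype.card_fin]
        _ ≤ _ := card_le_card h1
        _ ≤ (F ×ˢ (univ : Finset (Fin M))).card * M ^ (Fintype.card V - (k + 1)) := by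
            refine card_biUnion_le_card_mul _ _ _ fun p hp => ?_
            rw [mem_product] at hp
            have h3 := card_const p.1 p.2
            rwa [hF p.1 hp.1] at h3
        _ = _ := by rw [card_product, card_univ, Fintype.card_fin]
    have h4 : M ^ Fintype.card V = M ^ k * M * M ^ (Fintype.card V - (k + 1)) := by
      rw [← pow_succ, ← pow_add]
      congr 1
      omega
    rw [h4] at h2
    have h5 : 0 < M ^ (Fintype.card V - (k + 1)) := Nat.pow_pos hM
    have h6 := Nat.le_of_mul_le_mul_right h2 h5
    have h7 := Nat.le_of_mul_le_mul_right h6 hM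
    omega

end UnitSpheres
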