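import Mathlib

/-!
# Definitions for MP_d8f343_co
-/

set_option autoImplicit false

namespace UnitSpheres

/-- Three-dimensional Euclidean space. -/
abbrev E : Type := EuclideanSpace ℝ (Fin 3)

/-- A plane: an affine subspace with a two-dimensional direction. -/
def IsPlane (H : AffineSubspace ℝ E) : Prop := Module.finrank ℝ H.direction = 2

/-- A unit sphere. -/
def IsUnitSphere (s : Set E) : Prop := ∃ c : E, s = {x | dist x c = 1}

open Classical in
/-- The number of the points of `P` in the set `s`. -/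
noncomputable def num (P : Finset E) (s : Set E) : ℕ := (P.filter fun x => x ∈ s).card

/-- No plane contains more than `t` points of `P`. -/
def AtMost (P : Finset E) (t : ℝ) : Prop :=
  ∀ H : AffineSubspace ℝ E, IsPlane H → (num P (H : Set E) : ℝ) ≤ t

/-- `B` is a set of `n ^ 2` distinct unit spheres with at least `n` points of `P` on each. -/
def Rich (P : Finset E) (B : Finset (Set E)) (n : ℕ) : Prop :=
  B.card = n ^ 2 ∧ (∀ s ∈ B, IsUnitSphere s) ∧ ∀ s ∈ B, n ≤ num P s

/-- The assertion of Q1 with the exponent `α` in place of `5 / 2`. -/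
def Subpoly (α : ℝ) : Prop :=
  ∀ ε : ℝ, 0 < ε → ∃ δ : ℝ, 0 < δ ∧ ∃ n₀ : ℕ, ∀ n : ℕ, n₀ ≤ n → ∀ P : Finset E,
    AtMost P ((n : ℝ) ^ δ) → ∀ B : Finset (Set E), Rich P B n → (n : ℝ) ^ (α - ε) ≤ P.card

/-- The same with a constant in place of `n ^ δ`. -/
def Constant (α : ℝ) : Prop :=
  ∀ ε : ℝ, 0 < ε → ∀ k : ℕ, ∃ n₀ : ℕ, ∀ n : ℕ, n₀ ≤ n → ∀ P : Finset E,
    AtMost P k → ∀ B : Finset (Set E), Rich P B n → (n : ℝ) ^ (α - ε) ≤ P.card

end UnitSpheres
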