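import Pool.Agent.Lib.MP_d8f343_coH20.Defs

/-!
# MP_d8f343_co: counting coplanar sets
-/

set_option autoImplicit false

namespace UnitSpheres

open Finset

theorem three {A : Type} [DecidableEq A] {t : Finset A} (h0 : t.Nonempty) (h3 : t.card ≤ 3) :
    ∃ a ∈ t, ∃ b ∈ t, ∃ c ∈ t, t ⊆ {a, b, c} := by
  have h1 : 1 ≤ t.card := h0.card_pos
  have h4 : t.card = 1 ∨ t.card = 2 ∨ t.card = 3 := by omega
  rcases h4 with h | h | h
  · obtain ⟨a, rfl⟩ := card_eq_one.1 h
    exact ⟨a, by simp, a, by simp, a, by simp, by simp⟩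
  · obtain ⟨a, b, _, rfl⟩ := card_eq_two.1 h
    exact ⟨a, by simp, b, by simp, b, by simp, by simp⟩
  · obtain ⟨a, b, c, _, _, _, rfl⟩ := card_eq_three.1 h
    exact ⟨a, by simp, b, by simp, c, by simp, subset_rfl⟩

/-- A nonempty coplanar set is contained in the affine span of at most three of its points. -/
theorem span_three {V : Type} (e : V → E) {H : AffineSubspace ℝ E} (hH : IsPlane H)
    (T : Finset V) (hT : T.Nonempty) (hTH : ∀ x ∈ T, e x ∈ H) :
    ∃ a ∈ T, ∃ b ∈ T, ∃ c ∈ T, ∀ x ∈ T, e x ∈ affineSpan ℝ ({e a, e b, e c} : Set E) := by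
  classical
  obtain ⟨t, hts, hsp, hind⟩ := exists_affineIndependent ℝ E (e '' (T : Set V))
  have hfin : t.Finite := (T.finite_toSet.image e).subset hts
  have hF : Fintype t := hfin.fintype
  have htH : t ⊆ (H : Set E) := by
    intro x hx
    obtain ⟨y, hy, rfl⟩ := hts hx
    exact hTH y hy
  have hcard : Fintype.card t ≤ 3 := by
    have h1 : Fintype.card {x // x ∈ t} ≤ Module.finrank ℝ (vectorSpan ℝ (Set.range ((↑) : t → E))) + 1 := hind.card_le_finrank_succ
    rw [Subtype.range_coe] at h1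
    have h2 : Module.finrank ℝ (vectorSpan ℝ t) ≤ Module.finrank ℝ H.direction := by
      refine Submodule.finrank_mono ?_
      rw [← direction_affineSpan]
      exact AffineSubspace.direction_le (affineSpan_le.2 htH)
    rw [hH] at h2
    change Fintype.card {x // x ∈ t} ≤ 3
    omega
  have hne : t.Nonempty := by
    rw [Set.nonempty_iff_ne_empty]
    rintro rfl
    obtain ⟨x, hx⟩ := hT
    have h1 : e x ∈ affineSpan ℝ (e '' (T : Set V)) :=
      subset_affineSpan ℝ _ ⟨x, hx, rfl⟩
    rw [← hsp, AffineSubspace.span_empty] at h1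
    exact AffineSubspace.notMem_bot ℝ E _ h1
  obtain ⟨a, ha, b, hb, c, hc, habc⟩ := three (t := t.toFinset) (by simpa using hne)
    (by rw [Set.toFinset_card]; exact hcard)
  rw [Set.mem_toFinset] at ha hb hc
  obtain ⟨a', ha', rfl⟩ := hts ha
  obtain ⟨b', hb', rfl⟩ := hts hb
  obtain ⟨c', hc', rfl⟩ := hts hc
  refine ⟨a', ha', b', hb', c', hc', fun x hx => ?_⟩
  have h1 : e x ∈ affineSpan ℝ (e '' (T : Set V)) := subset_affineSpan ℝ _ ⟨x, hx, rfl⟩
  rw [← hsp] at h1
  refine affineSpan_mono ℝ ?_ h1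
  intro y hy
  have h2 := habc (Set.mem_toFinset.2 hy)
  simpa using h2

/-- The number of the coplanar subsets with `k + 1` elements. -/
theorem card_coplanar {P : Finset E} {t : ℕ}
    (ht : ∀ H : AffineSubspace ℝ E, IsPlane H → num P (H : Set E) ≤ t) (k : ℕ)
    (F : Finset (Finset {x // x ∈ P})) (hF : ∀ T ∈ F, T.card = k + 1 ∧
      ∃ H : AffineSubspace ℝ E, IsPlane H ∧ ∀ x ∈ T, (x : E) ∈ H) :
    F.card ≤ P.card ^ 3 * t ^ (k + 1) := by
  classical
  set g : {x // x ∈ P} × {x // x ∈ P} × {x // x ∈ P} → Finset (Finset {x // x ∈ P}) := fun p =>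
    if (univ.filter fun x : {x // x ∈ P} =>
      (x : E) ∈ affineSpan ℝ ({(p.1 : E), (p.2.1 : E), (p.2.2 : E)} : Set E)).card ≤ t then
      powersetCard (k + 1) (univ.filter fun x : {x // x ∈ P} =>
        (x : E) ∈ affineSpan ℝ ({(p.1 : E), (p.2.1 : E), (p.2.2 : E)} : Set E)) else ∅ with hg
  have h1 : F ⊆ univ.biUnion g := by
    intro T hT
    obtain ⟨hc, H, hH, hTH⟩ := hF T hT
    have hne : T.Nonempty := by
      rw [← card_pos]
      omega
    obtain ⟨a, ha, b, hb, c, hc', habc⟩ := span_three (fun x : {x // x ∈ P} => (x : E)) hH T hne hTH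
    rw [mem_biUnion]
    refine ⟨(a, b, c), mem_univ _, ?_⟩
    have h2 : (univ.filter fun x : {x // x ∈ P} =>
        (x : E) ∈ affineSpan ℝ ({(a : E), (b : E), (c : E)} : Set E)).card ≤ t := by
      refine le_trans ?_ (ht H hH)
      unfold num
      refine card_le_card_of_injOn (fun x => (x : E)) ?_ (fun _ _ _ _ h => Subtype.ext h)
      intro x hx
      have hx' := (mem_filter.1 (mem_coe.1 hx)).2
      refine mem_coe.2 (mem_filter.2 ⟨x.2, ?_⟩)
      refine (affineSpan_le.2 ?_) hx'
      intro y hy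
      simp only [Set.mem_insert_iff, Set.mem_singleton_iff] at hy
      rcases hy with rfl | rfl | rfl
      · exact hTH a ha
      · exact hTH b hb
      · exact hTH c hc'
    rw [hg]
    simp only
    rw [if_pos h2, mem_powersetCard]
    exact ⟨fun x hx => mem_filter.2 ⟨mem_univ _, habc x hx⟩, hc⟩
  refine (card_le_card h1).trans ?_
  have h3 : ∀ p ∈ (univ : Finset ({x // x ∈ P} × {x // x ∈ P} × {x // x ∈ P})),
      (g p).card ≤ t ^ (k + 1) := by
    intro p _
    rw [hg]
    simp only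
    split_ifs with h4
    · rw [card_powersetCard]
      exact (Nat.choose_le_pow _ _).trans (Nat.pow_le_pow_left h4 _)
    · simp
  refine (card_biUnion_le_card_mul _ _ _ h3).trans (le_of_eq ?_)
  congr 1
  rw [card_univ, Fintype.card_prod, Fintype.card_prod, Fintype.card_coe]
  ring

end UnitSpheres
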