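import Pool.Agent.Lib.MP_d8f343_coH20.Colour
import Pool.Agent.Lib.MP_d8f343_coH20.Geo

/-!
# MP_d8f343_co: constant and subpolynomial coplanarity
-/

set_option autoImplicit false

namespace UnitSpheres

open Finset

/-- The colour class argument. -/
theorem exists_subset_rich {P : Finset E} {B : Finset (Set E)} {n t M k m : ℕ} (hM : 1 ≤ M)
    (ht : ∀ H : AffineSubspace ℝ E, IsPlane H → num P (H : Set E) ≤ t)
    (hc : P.card ^ 3 * t ^ (k + 1) < M ^ k) (hB : Rich P B n) (hm : m * M ≤ n) :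
    ∃ Q : Finset E, Q ⊆ P ∧ AtMost Q k ∧ ∃ C : Finset (Set E), Rich Q C m := by
  classical
  obtain ⟨f, hf⟩ := exists_colouring (V := {x // x ∈ P}) hM
    (univ.filter fun T : Finset {x // x ∈ P} => T.card = k + 1 ∧
      ∃ H : AffineSubspace ℝ E, IsPlane H ∧ ∀ x ∈ T, (x : E) ∈ H)
    (fun T hT => (mem_filter.1 hT).2.1)
    (lt_of_le_of_lt (card_coplanar ht k _ fun T hT => (mem_filter.1 hT).2) hc)
  set Q : Fin M → Finset E := fun i =>
    (univ.filter fun x : {x // x ∈ P} => f x = i).image Subtype.val with hQ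
  have hnum : ∀ (i : Fin M) (s : Set E), num (Q i) s =
      ((univ.filter fun x : {x // x ∈ P} => (x : E) ∈ s).filter fun x => f x = i).card := by
    intro i s
    have h1 : ((Q i).filter fun x => x ∈ s) =
        ((univ.filter fun x : {x // x ∈ P} => (x : E) ∈ s).filter fun x => f x = i).image
          Subtype.val := by
      ext y
      simp only [hQ, mem_filter, mem_image, mem_univ, true_and]
      constructor
      · rintro ⟨⟨x, hx, rfl⟩, hy⟩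
        exact ⟨x, ⟨hy, hx⟩, rfl⟩
      · rintro ⟨x, ⟨hy, hx⟩, rfl⟩
        exact ⟨⟨x, hx, rfl⟩, hy⟩
    unfold num
    have h2 := congrArg card h1
    rw [card_image_of_injective _ Subtype.val_injective] at h2
    rw [← h2]
  have hnum' : ∀ s : Set E, num P s =
      (univ.filter fun x : {x // x ∈ P} => (x : E) ∈ s).card := by
    intro s
    have h1 : (P.filter fun x => x ∈ s) =
        (univ.filter fun x : {x // x ∈ P} => (x : E) ∈ s).image Subtype.val := by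
      ext y
      simp only [mem_filter, mem_image, mem_univ, true_and]
      constructor
      · rintro ⟨h, hy⟩
        exact ⟨⟨y, h⟩, hy, rfl⟩
      · rintro ⟨x, hy, rfl⟩
        exact ⟨x.2, hy⟩
    unfold num
    have h2 := congrArg card h1
    rw [card_image_of_injective _ Subtype.val_injective] at h2
    rw [← h2]
  have hcol : ∀ s : Set E, n ≤ num P s → ∃ i : Fin M, m ≤ num (Q i) s := by
    intro s hs
    obtain ⟨i, _, hi⟩ := exists_le_card_fiber_of_mul_le_card_of_maps_to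
      (s := univ.filter fun x : {x // x ∈ P} => (x : E) ∈ s) (t := (univ : Finset (Fin M)))
      (f := f) (n := m) (fun _ _ => mem_univ _) ⟨⟨0, hM⟩, mem_univ _⟩
      (by rw [card_univ, Fintype.card_fin, ← hnum' s, mul_comm]; exact hm.trans hs)
    exact ⟨i, by rw [hnum i s]; exact hi⟩
  have hcol2 : ∀ s : Set E, ∃ i : Fin M, n ≤ num P s → m ≤ num (Q i) s := by
    intro s
    by_cases hs : n ≤ num P s
    · obtain ⟨i, hi⟩ := hcol s hs
      exact ⟨i, fun _ => hi⟩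
    · exact ⟨⟨0, hM⟩, fun h => absurd h hs⟩
  choose c hc' using hcol2
  obtain ⟨i, _, hi⟩ := exists_le_card_fiber_of_mul_le_card_of_maps_to
    (s := B) (t := (univ : Finset (Fin M))) (f := c) (n := m ^ 2) (fun _ _ => mem_univ _)
    ⟨⟨0, hM⟩, mem_univ _⟩ (by
      rw [card_univ, Fintype.card_fin, hB.1]
      calc M * m ^ 2 ≤ M ^ 2 * m ^ 2 := Nat.mul_le_mul_right _ (Nat.le_self_pow (by norm_num) M)
        _ = (m * M) ^ 2 := by ring
        _ ≤ n ^ 2 := Nat.pow_le_pow_left hm 2)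
  obtain ⟨C, hC, hCc⟩ := exists_subset_card_eq hi
  refine ⟨Q i, ?_, ?_, C, hCc, ?_, ?_⟩
  · intro x hx
    simp only [hQ, mem_image] at hx
    obtain ⟨y, _, rfl⟩ := hx
    exact y.2
  · intro H hH
    by_contra hcon
    push Not at hcon
    have h1 : k + 1 ≤ num (Q i) (H : Set E) := by exact_mod_cast hcon
    rw [hnum] at h1
    obtain ⟨T, hT, hTc⟩ := exists_subset_card_eq h1
    refine hf T (mem_filter.2 ⟨mem_univ _, hTc, H, hH, fun x hx => ?_⟩) i fun x hx => ?_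
    · exact (mem_filter.1 (mem_filter.1 (hT hx)).1).2
    · exact (mem_filter.1 (hT hx)).2
  · intro s hs
    exact hB.2.1 s (mem_filter.1 (hC hs)).1
  · intro s hs
    have h1 := mem_filter.1 (hC hs)
    have h2 := hc' s (hB.2.2 s h1.1)
    rwa [h1.2] at h2

/-- The choice of the parameters. -/
theorem parameters {α ε : ℝ} (h3 : α ≤ 3) (hε : 0 < ε) (hεα : ε ≤ α) :
    ∃ δ : ℝ, 0 < δ ∧ ∃ k : ℕ, ∀ n₁ : ℕ, ∃ n₀ : ℕ, 2 ≤ n₀ ∧ ∀ n : ℕ, n₀ ≤ n → ∃ M m : ℕ,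
      1 ≤ M ∧ m * M ≤ n ∧ n₁ ≤ m ∧
      ((n : ℝ) ^ 3) ^ 3 * ((n : ℝ) ^ δ) ^ (k + 1) < (M : ℝ) ^ k ∧
      (n : ℝ) ^ (α - ε) ≤ (m : ℝ) ^ (α - ε / 2) := by
  have hδ : 0 < ε / 18 := by positivity
  have hδ6 : ε / 18 ≤ 1 / 6 := by linarith
  refine ⟨ε / 18, hδ, ⌈9 / (ε / 18)⌉₊ + 2, fun n₁ => ?_⟩
  set δ : ℝ := ε / 18 with hδdef
  set k : ℕ := ⌈9 / δ⌉₊ + 2 with hk
  have hk1 : 9 + δ * (k + 1) < 2 * δ * k := by
    have h1 : 9 / δ ≤ ⌈9 / δ⌉₊ := Nat.le_ceil _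
    have h2 : (k : ℝ) = ⌈9 / δ⌉₊ + 2 := by rw [hk]; push_cast; ring
    have h3 : 9 ≤ (⌈9 / δ⌉₊ : ℝ) * δ := by rwa [div_le_iff₀ hδ] at h1
    rw [h2]
    nlinarith
  have ht1 : Filter.Tendsto (fun n : ℕ => (n : ℝ) ^ δ) Filter.atTop Filter.atTop :=
    (tendsto_rpow_atTop hδ).comp tendsto_natCast_atTop_atTop
  have ht2 : Filter.Tendsto (fun n : ℕ => (n : ℝ) ^ (1 - 3 * δ)) Filter.atTop Filter.atTop :=
    (tendsto_rpow_atTop (by linarith)).comp tendsto_natCast_atTop_atTop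
  obtain ⟨n₀, hn₀⟩ := Filter.eventually_atTop.1
    ((ht1.eventually_ge_atTop 4).and (ht2.eventually_ge_atTop (n₁ : ℝ)))
  refine ⟨max n₀ 2, le_max_right _ _, fun n hn => ?_⟩
  have hn2 : 2 ≤ n := (le_max_right _ _).trans hn
  obtain ⟨h4, h5⟩ := hn₀ n ((le_max_left _ _).trans hn)
  have hnr : (2 : ℝ) ≤ n := by exact_mod_cast hn2
  have hn0 : (0 : ℝ) < n := by linarith
  set M : ℕ := ⌈(n : ℝ) ^ (2 * δ)⌉₊ with hM
  have hM1 : (n : ℝ) ^ (2 * δ) ≤ M := Nat.le_ceil _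
  have hM2 : (M : ℝ) ≤ 2 * (n : ℝ) ^ (2 * δ) := by
    have h6 := Nat.ceil_lt_add_one (Real.rpow_nonneg hn0.le (2 * δ))
    have h7 : (1 : ℝ) ≤ (n : ℝ) ^ (2 * δ) := Real.one_le_rpow (by linarith) (by linarith)
    linarith
  have hM0 : 1 ≤ M := by
    have h6 : (0 : ℝ) < M := lt_of_lt_of_le (Real.rpow_pos_of_pos hn0 _) hM1
    exact_mod_cast h6
  have hm1 : (n : ℝ) ^ (1 - 3 * δ) ≤ ((n / M : ℕ) : ℝ) := by
    have h6 : (n : ℝ) < M * (((n / M : ℕ) : ℝ) + 1) := by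
      exact_mod_cast Nat.lt_mul_div_succ n hM0
    have h7 : (n : ℝ) = (n : ℝ) ^ (2 * δ) * ((n : ℝ) ^ δ * (n : ℝ) ^ (1 - 3 * δ)) := by
      rw [← Real.rpow_add hn0, ← Real.rpow_add hn0]
      ring_nf
      rw [Real.rpow_one]
    have h8 : (0 : ℝ) < (n : ℝ) ^ (2 * δ) := Real.rpow_pos_of_pos hn0 _
    have h9 : (1 : ℝ) ≤ (n : ℝ) ^ (1 - 3 * δ) := Real.one_le_rpow (by linarith) (by linarith)
    have h10 : (0 : ℝ) ≤ ((n / M : ℕ) : ℝ) := Nat.cast_nonneg _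
    have h11 : (n : ℝ) ^ (2 * δ) * ((n : ℝ) ^ δ * (n : ℝ) ^ (1 - 3 * δ)) <
        (n : ℝ) ^ (2 * δ) * (2 * (((n / M : ℕ) : ℝ) + 1)) := by
      rw [← h7]
      refine h6.trans_le ?_
      nlinarith
    have h12 := lt_of_mul_lt_mul_left h11 h8.le
    have h13 : 4 * (n : ℝ) ^ (1 - 3 * δ) ≤ (n : ℝ) ^ δ * (n : ℝ) ^ (1 - 3 * δ) :=
      mul_le_mul_of_nonneg_right h4 (by linarith)
    linarith
  refine ⟨M, n / M, hM0, Nat.div_mul_le_self n M, ?_, ?_, ?_⟩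
  · exact_mod_cast h5.trans hm1
  · have h6 : ((n : ℝ) ^ 3) ^ 3 * ((n : ℝ) ^ δ) ^ (k + 1) = (n : ℝ) ^ (9 + δ * (k + 1)) := by
      rw [Real.rpow_add hn0, Real.rpow_mul hn0.le, ← pow_mul]
      congr 1
      · rw [show (9 : ℝ) = ((9 : ℕ) : ℝ) by norm_num, Real.rpow_natCast]
      · rw [show (k : ℝ) + 1 = ((k + 1 : ℕ) : ℝ) by push_cast; ring, Real.rpow_natCast]
    have h7 : ((n : ℝ) ^ (2 * δ)) ^ k = (n : ℝ) ^ (2 * δ * k) := by
      rw [Real.rpow_mul hn0.le (2 * δ) (k : ℝ), Real.rpow_natCast]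
    rw [h6]
    refine lt_of_lt_of_le (Real.rpow_lt_rpow_of_exponent_lt (by linarith) hk1) ?_
    rw [← h7]
    exact pow_le_pow_left₀ (Real.rpow_nonneg hn0.le _) hM1 k
  · have h6 : (n : ℝ) ^ (α - ε) ≤ ((n : ℝ) ^ (1 - 3 * δ)) ^ (α - ε / 2) := by
      rw [← Real.rpow_mul hn0.le]
      refine Real.rpow_le_rpow_of_exponent_le (by linarith) ?_
      rw [hδdef]
      nlinarith
    exact h6.trans (Real.rpow_le_rpow (Real.rpow_nonneg hn0.le _) hm1 (by linarith))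

theorem constant_of_subpoly {α : ℝ} (h : Subpoly α) : Constant α := by
  intro ε hε k
  obtain ⟨δ, hδ, n₀, hn₀⟩ := h ε hε
  have ht1 : Filter.Tendsto (fun n : ℕ => (n : ℝ) ^ δ) Filter.atTop Filter.atTop :=
    (tendsto_rpow_atTop hδ).comp tendsto_natCast_atTop_atTop
  obtain ⟨n₁, hn₁⟩ := Filter.eventually_atTop.1 (ht1.eventually_ge_atTop (k : ℝ))
  refine ⟨max n₀ n₁, fun n hn P hP B hB => ?_⟩
  exact hn₀ n ((le_max_left _ _).trans hn) P
    (fun H hH => (hP H hH).trans (hn₁ n ((le_max_right _ _).trans hn))) B hB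

theorem subpoly_of_constant {α : ℝ} (h0 : 0 < α) (h3 : α ≤ 3) (h : Constant α) : Subpoly α := by
  intro ε hε
  have hε1 : 0 < min ε α := lt_min hε h0
  obtain ⟨δ, hδ, k, hk⟩ := parameters h3 hε1 (min_le_right ε α)
  obtain ⟨n₁, hn₁⟩ := h (min ε α / 2) (by positivity) k
  obtain ⟨n₀, hn2, hn₀⟩ := hk n₁
  refine ⟨δ, hδ, n₀, fun n hn P hP B hB => ?_⟩
  have hnr : (1 : ℝ) ≤ n := by
    have h4 : 1 ≤ n := by omega
    exact_mod_cast h4
  have hn0 : (0 : ℝ) < n := by linarith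
  rcases le_or_gt ((n : ℝ) ^ 3) (P.card : ℝ) with hP3 | hP3
  · refine le_trans ?_ hP3
    rw [← Real.rpow_natCast]
    refine Real.rpow_le_rpow_of_exponent_le hnr ?_
    push_cast
    linarith
  · obtain ⟨M, m, hM, hmM, hm, hc, hle⟩ := hn₀ n hn
    have hnδ : (0 : ℝ) ≤ (n : ℝ) ^ δ := Real.rpow_nonneg hn0.le _
    have ht : ∀ H : AffineSubspace ℝ E, IsPlane H → num P (H : Set E) ≤ ⌊(n : ℝ) ^ δ⌋₊ :=
      fun H hH => Nat.le_floor (hP H hH)
    have hcc : P.card ^ 3 * ⌊(n : ℝ) ^ δ⌋₊ ^ (k + 1) < M ^ k := by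
      have h5 : ((P.card : ℝ)) ^ 3 * (⌊(n : ℝ) ^ δ⌋₊ : ℝ) ^ (k + 1) < (M : ℝ) ^ k := by
        refine lt_of_le_of_lt ?_ hc
        refine mul_le_mul (pow_le_pow_left₀ (Nat.cast_nonneg _) hP3.le 3)
          (pow_le_pow_left₀ (Nat.cast_nonneg _) (Nat.floor_le hnδ) _) (by positivity)
          (by positivity)
      exact_mod_cast h5
    obtain ⟨Q, hQP, hQ, C, hC⟩ := exists_subset_rich hM ht hcc hB hmM
    have h6 := hn₁ m hm Q hQ C hC
    calc (n : ℝ) ^ (α - ε) ≤ (n : ℝ) ^ (α - min ε α) :=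
          Real.rpow_le_rpow_of_exponent_le hnr (by linarith [min_le_left ε α])
      _ ≤ (m : ℝ) ^ (α - min ε α / 2) := hle
      _ ≤ (Q.card : ℝ) := h6
      _ ≤ (P.card : ℝ) := by exact_mod_cast card_le_card hQP

end UnitSpheres
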